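import Mathlib
import Pool.Agent.Q112.ML.Table

/-!
# Properties of the functional on words
-/

namespace Pool.Agent.Q112.MLUnit

theorem wlog4 {α : Type*} (key : α → ℕ) {Φ : α → α → α → α → Prop}
    (h12 : ∀ a b c d, Φ a b c d → Φ b a c d) (h23 : ∀ a b c d, Φ a b c d → Φ a c b d)
    (h34 : ∀ a b c d, Φ a b c d → Φ a b d c)
    (hs : ∀ a b c d, key a ≤ key b → key b ≤ key c → key c ≤ key d → Φ a b c d) :
    ∀ a b c d, Φ a b c d := by
  have i4 : ∀ a b c d, key a ≤ key b → key b ≤ key c → Φ a b c d := by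
    intro a b c d h1 h2
    rcases le_total (key c) (key d) with h | h
    · exact hs _ _ _ _ h1 h2 h
    · rcases le_total (key b) (key d) with h' | h'
      · exact h34 _ _ _ _ (hs _ _ _ _ h1 h' h)
      · rcases le_total (key a) (key d) with h'' | h''
        · exact h34 _ _ _ _ (h23 _ _ _ _ (hs _ _ _ _ h'' h' h2))
        · exact h34 _ _ _ _ (h23 _ _ _ _ (h12 _ _ _ _ (hs _ _ _ _ h'' h1 h2)))
  have i3 : ∀ a b c d, key a ≤ key b → Φ a b c d := by
    intro a b c d h1
    rcases le_total (key b) (key c) with h | h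
    · exact i4 _ _ _ _ h1 h
    · rcases le_total (key a) (key c) with h' | h'
      · exact h23 _ _ _ _ (i4 _ _ _ _ h' h)
      · exact h23 _ _ _ _ (h12 _ _ _ _ (i4 _ _ _ _ h' h1))
  intro a b c d
  rcases le_total (key a) (key b) with h | h
  · exact i3 _ _ _ _ h
  · exact h12 _ _ _ _ (i3 _ _ _ _ h)

theorem wlog3 {α : Type*} (key : α → ℕ) {Φ : α → α → α → Prop}
    (h12 : ∀ a b c, Φ a b c → Φ b a c) (h23 : ∀ a b c, Φ a b c → Φ a c b)
    (hs : ∀ a b c, key a ≤ key b → key b ≤ key c → Φ a b c) :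
    ∀ a b c, Φ a b c := by
  have i3 : ∀ a b c, key a ≤ key b → Φ a b c := by
    intro a b c h1
    rcases le_total (key b) (key c) with h | h
    · exact hs _ _ _ h1 h
    · rcases le_total (key a) (key c) with h' | h'
      · exact h23 _ _ _ (hs _ _ _ h' h)
      · exact h23 _ _ _ (h12 _ _ _ (hs _ _ _ h' h1))
  intro a b c
  rcases le_total (key a) (key b) with h | h
  · exact i3 _ _ _ h
  · exact h12 _ _ _ (i3 _ _ _ h)

lemma ble_absurd {m n : ℕ} (h : m ≤ n) (h' : Nat.ble m n = false) : False := by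
  rw [Nat.ble_eq_true_of_le h] at h'
  exact absurd h' (by simp)

section Sym
variable {α β : Type*} [AddCommMonoid β]

lemma sum3_swap12 (f : α → α → α → β) (a b c : α) : sum3 f b a c = sum3 f a b c := by
  simp only [sum3, sum2]; abel
lemma sum3_swap23 (f : α → α → α → β) (a b c : α) : sum3 f a c b = sum3 f a b c := by
  simp only [sum3, sum2]; abel
lemma sum4_swap12 (f : α → α → α → α → β) (a b c d : α) :
    sum4 f b a c d = sum4 f a b c d := by
  simp only [sum4, sum3, sum2]; abel
lemma sum4_swap23 (f : α → α → α → α → β) (a b c d : α) :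
    sum4 f a c b d = sum4 f a b c d := by
  simp only [sum4, sum3, sum2]; abel
lemma sum4_swap34 (f : α → α → α → α → β) (a b c d : α) :
    sum4 f a b d c = sum4 f a b c d := by
  simp only [sum4, sum3, sum2]; abel

end Sym

/-- The multiset of a list of words. -/
def ms (l : List (List ℕ)) : Multiset ℕ := (l.flatten : Multiset ℕ)

lemma ms_nil : ms [] = 0 := by simp [ms]
lemma ms_cons (w : List ℕ) (l) : ms (w :: l) = (w : Multiset ℕ) + ms l := by
  simp [ms]

lemma P_check {W : List ℕ} (hW : (words W.length W).all chkP = true)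
    (p q : List ℕ) : ∀ a b c d : List ℕ, a ≠ [] → b ≠ [] → c ≠ [] → d ≠ [] →
    ms [p, a, b, c, d, q] = (W : Multiset ℕ) →
    sum4 (fun a b c e => look (cd [p, a, b, c, e, q])) a b c d % 4 = 0 := by
  refine wlog4 key ?_ ?_ ?_ ?_
  · intro a b c d h h1 h2 h3 h4 h5
    rw [sum4_swap12]
    refine h h2 h1 h3 h4 ?_
    rw [← h5]; simp only [ms_cons]; abel
  · intro a b c d h h1 h2 h3 h4 h5
    rw [sum4_swap23]
    refine h h1 h3 h2 h4 ?_
    rw [← h5]; simp only [ms_cons]; abel
  · intro a b c d h h1 h2 h3 h4 h5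
    rw [sum4_swap34]
    refine h h1 h2 h4 h3 ?_
    rw [← h5]; simp only [ms_cons]; abel
  · intro a b c d hab hbc hcd h1 h2 h3 h4 h5
    have hperm : (p ++ (a ++ (b ++ (c ++ (d ++ q))))).Perm W := by
      rw [← Multiset.coe_eq_coe, ← h5]
      simp [ms]
    have hmem := mem_words _ _ hperm
    rw [hperm.length_eq] at hmem
    rw [List.all_eq_true] at hW
    have h := hW _ hmem
    simp only [chkP, List.all_eq_true] at h
    have h6 := h _ (mem_splits2 p _) _ (mem_splitsNE h1 _) _ (mem_splitsNE h2 _)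
    simp only [Bool.or_eq_true, Bool.not_eq_true', List.all_eq_true] at h6
    rcases h6 with h6 | h6
    · exact (ble_absurd hab h6).elim
    have h7 := h6 _ (mem_splitsNE h3 _)
    rcases h7 with h7 | h7
    · exact (ble_absurd hbc h7).elim
    have h8 := h7 _ (mem_splitsNE h4 _)
    rcases h8 with h8 | h8
    · exact (ble_absurd hcd h8).elim
    exact Nat.eq_of_beq_eq_true h8

lemma H_check {W : List ℕ} (hW : (words W.length W).all chkH = true)
    (p q : List ℕ) : ∀ a b c d : List ℕ, a ≠ [] → b ≠ [] → c ≠ [] → d ≠ [] →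
    ms [p, a, b, c, d, q] = (W : Multiset ℕ) → tot5 p a b c d q % 4 = 0 := by
  refine wlog4 key ?_ ?_ ?_ ?_
  · intro a b c d h h1 h2 h3 h4 h5
    have : tot5 p b a c d q = tot5 p a b c d q := by
      simp only [tot5]
      rw [sum4_swap12, sum3_swap12 _ a b c, sum3_swap12 _ a b d]
      ring
    rw [this]
    refine h h2 h1 h3 h4 ?_
    rw [← h5]; simp only [ms_cons]; abel
  · intro a b c d h h1 h2 h3 h4 h5
    have : tot5 p a c b d q = tot5 p a b c d q := by
      simp only [tot5]
      rw [sum4_swap23, sum3_swap12 _ b c d, sum3_swap23 _ a b c]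
      ring
    rw [this]
    refine h h1 h3 h2 h4 ?_
    rw [← h5]; simp only [ms_cons]; abel
  · intro a b c d h h1 h2 h3 h4 h5
    have : tot5 p a b d c q = tot5 p a b c d q := by
      simp only [tot5]
      rw [sum4_swap34, sum3_swap23 _ b c d, sum3_swap23 _ a c d]
      ring
    rw [this]
    refine h h1 h2 h4 h3 ?_
    rw [← h5]; simp only [ms_cons]; abel
  · intro a b c d hab hbc hcd h1 h2 h3 h4 h5
    have hperm : (p ++ (a ++ (b ++ (c ++ (d ++ q))))).Perm W := by
      rw [← Multiset.coe_eq_coe, ← h5]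
      simp [ms]
    have hmem := mem_words _ _ hperm
    rw [hperm.length_eq] at hmem
    rw [List.all_eq_true] at hW
    have h := hW _ hmem
    simp only [chkH, List.all_eq_true] at h
    have h6 := h _ (mem_splits2 p _) _ (mem_splitsNE h1 _) _ (mem_splitsNE h2 _)
    simp only [Bool.or_eq_true, Bool.not_eq_true', List.all_eq_true] at h6
    rcases h6 with h6 | h6
    · exact (ble_absurd hab h6).elim
    have h7 := h6 _ (mem_splitsNE h3 _)
    rcases h7 with h7 | h7
    · exact (ble_absurd hbc h7).elim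
    have h8 := h7 _ (mem_splitsNE h4 _)
    rcases h8 with h8 | h8
    · exact (ble_absurd hcd h8).elim
    exact Nat.eq_of_beq_eq_true h8

lemma six_swap (p x y a b c q : List ℕ) : six p x y a b c q = six p y x a b c q := by
  simp only [six]; ring

lemma K_check {W : List ℕ} (hW : (words W.length W).all chkK = true)
    (p q : List ℕ) : ∀ x y a b c : List ℕ, x ≠ [] → y ≠ [] → a ≠ [] → b ≠ [] → c ≠ [] →
    ms [p, x, y, a, b, c, q] = (W : Multiset ℕ) →
    sum3 (fun a b e => six p x y a b e q) a b c % 2 = 0 := by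
  have main : ∀ x y : List ℕ, key x ≤ key y → ∀ a b c : List ℕ, x ≠ [] → y ≠ [] → a ≠ [] →
      b ≠ [] → c ≠ [] → ms [p, x, y, a, b, c, q] = (W : Multiset ℕ) →
      sum3 (fun a b e => six p x y a b e q) a b c % 2 = 0 := by
    intro x y hxy
    refine wlog3 key ?_ ?_ ?_
    · intro a b c h h1 h2 h3 h4 h5 h6
      rw [sum3_swap12]
      refine h h1 h2 h4 h3 h5 ?_
      rw [← h6]; simp only [ms_cons]; abel
    · intro a b c h h1 h2 h3 h4 h5 h6
      rw [sum3_swap23]
      refine h h1 h2 h3 h5 h4 ?_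
      rw [← h6]; simp only [ms_cons]; abel
    · intro a b c hab hbc h1 h2 h3 h4 h5 h6
      have hperm : (p ++ (x ++ (y ++ (a ++ (b ++ (c ++ q)))))).Perm W := by
        rw [← Multiset.coe_eq_coe, ← h6]
        simp [ms]
      have hmem := mem_words _ _ hperm
      rw [hperm.length_eq] at hmem
      rw [List.all_eq_true] at hW
      have h := hW _ hmem
      simp only [chkK, List.all_eq_true] at h
      have h6 := h _ (mem_splits2 p _) _ (mem_splitsNE h1 _) _ (mem_splitsNE h2 _)
      simp only [Bool.or_eq_true, Bool.not_eq_true', List.all_eq_true] at h6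
      rcases h6 with h6 | h6
      · exact (ble_absurd hxy h6).elim
      have h7 := h6 _ (mem_splitsNE h3 _) _ (mem_splitsNE h4 _)
      rcases h7 with h7 | h7
      · exact (ble_absurd hab h7).elim
      have h8 := h7 _ (mem_splitsNE h5 _)
      rcases h8 with h8 | h8
      · exact (ble_absurd hbc h8).elim
      exact Nat.eq_of_beq_eq_true h8
  intro x y a b c h1 h2 h3 h4 h5 h6
  rcases le_total (key x) (key y) with h | h
  · exact main x y h a b c h1 h2 h3 h4 h5 h6
  · have h7 := main y x h a b c h2 h1 h3 h4 h5 (by rw [← h6]; simp only [ms_cons]; abel)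
    rw [show (fun a b e => six p x y a b e q) = fun a b e => six p y x a b e q from by
      funext a b e; exact six_swap p x y a b e q]
    exact h7

/-- The multiset of the first kind. -/
def mA : Multiset ℕ := (([0, 0, 1, 2, 3, 4] : List ℕ) : Multiset ℕ)
/-- The multiset of the second kind. -/
def mB : Multiset ℕ := (([0, 1, 2, 3, 4, 4] : List ℕ) : Multiset ℕ)
/-- The multiset of the letters. -/
def mC : Multiset ℕ := (([0, 1, 2, 3, 4] : List ℕ) : Multiset ℕ)

/-- The functional on words. -/
def lam (w : List ℕ) : ℕ :=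
  if (w : Multiset ℕ) = mA ∨ (w : Multiset ℕ) = mB then tb w else fiv w

lemma lam_of_AB {l : List (List ℕ)} (h : ms l = mA ∨ ms l = mB) :
    lam l.flatten = look (cd l) := by
  have h' : (l.flatten : Multiset ℕ) = mA ∨ (l.flatten : Multiset ℕ) = mB := h
  rw [lam, if_pos h', tb, code_flatten]

lemma lam_of_not {l : List (List ℕ)} (h1 : ms l ≠ mA) (h2 : ms l ≠ mB) :
    lam l.flatten = fiv l.flatten := by
  rw [lam, if_neg]
  rintro (h | h)
  · exact h1 h
  · exact h2 h

lemma two_lam {l : List (List ℕ)} (h1 : ms l ≠ mA) (h2 : ms l ≠ mB) :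
    (2 * (lam l.flatten : ZMod 4)) = 0 := by
  rw [lam_of_not h1 h2, fiv]
  split_ifs
  · decide
  · simp

lemma fiv_zero {l : List (List ℕ)} (h : ms l ≠ mC) : fiv l.flatten = 0 := by
  rw [fiv, if_neg]
  intro h'
  exact h (by rw [ms, h']; rfl)

end Pool.Agent.Q112.MLUnit
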