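import Mathlib
import Pool.Agent.Q112.ML.Alg

/-!
# The ring
-/

namespace Pool.Agent.Q112.MLUnit

/-- The free unital ring on countably many letters. -/
abbrev U := MonoidAlgebra ℤ (FreeMonoid ℕ)

/-- A word as an element of the free ring. -/
noncomputable def mo (w : List ℕ) : U := MonoidAlgebra.single (FreeMonoid.ofList w) 1

lemma mo_mul (v w : List ℕ) : mo v * mo w = mo (v ++ w) := by
  simp [mo, MonoidAlgebra.single_mul_single, FreeMonoid.ofList_append]

lemma mo_nil : mo [] = 1 := rfl

/-- The functional. -/
noncomputable def Lam : U →+ ZMod 4 where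
  toFun x := x.coeff.sum fun w n => (n : ZMod 4) * (lam (FreeMonoid.toList w) : ZMod 4)
  map_zero' := by simp
  map_add' x y := by
    rw [MonoidAlgebra.coeff_add, Finsupp.sum_add_index']
    · intro; simp
    · intro a b c; push_cast; ring

lemma Lam_mo (w : List ℕ) : Lam (mo w) = (lam w : ZMod 4) := by
  change ((mo w).coeff.sum fun w n => (n : ZMod 4) * (lam (FreeMonoid.toList w) : ZMod 4)) = _
  simp [mo]

lemma U_ind {P : U → Prop} (h0 : P 0) (ha : ∀ x y, P x → P y → P (x + y))
    (hn : ∀ x, P x → P (-x)) (hw : ∀ w, P (mo w)) : ∀ x, P x := by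
  intro x
  refine MonoidAlgebra.induction_linear x h0 ha ?_
  intro w n
  induction n using Int.induction_on with
  | zero => simpa using h0
  | succ n ih =>
      rw [MonoidAlgebra.single_add]
      exact ha _ _ ih (hw w)
  | pred n ih =>
      rw [sub_eq_add_neg, MonoidAlgebra.single_add]
      refine ha _ _ ih ?_
      have e : (MonoidAlgebra.single w (-1) : U) = -mo (FreeMonoid.toList w) := by
        rw [MonoidAlgebra.single_neg]; rfl
      rw [e]
      exact hn _ (hw _)

/-- The congruence: `a - b` lies in the largest ideal contained in the kernel of `Lam`. -/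
noncomputable def cc : RingCon U where
  r a b := ∀ u v, Lam (u * (a - b) * v) = 0
  iseqv := ⟨fun a u v => by simp, fun {a b} h u v => by
      have := h u v
      rw [← neg_sub a b, mul_neg, neg_mul, map_neg, this, neg_zero],
    fun {a b c} h1 h2 u v => by
      have e : u * (a - c) * v = u * (a - b) * v + u * (b - c) * v := by noncomm_ring
      rw [e, map_add, h1, h2, add_zero]⟩
  mul' := fun {a b c d} h1 h2 u v => by
      have e : u * (a * c - b * d) * v = u * (a - b) * (c * v) + (u * b) * (c - d) * v := by
        noncomm_ring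
      change Lam (u * (a * c - b * d) * v) = 0
      rw [e, map_add, h1, h2, add_zero]
  add' := fun {a b c d} h1 h2 u v => by
      have e : u * (a + c - (b + d)) * v = u * (a - b) * v + u * (c - d) * v := by
        noncomm_ring
      change Lam (u * (a + c - (b + d)) * v) = 0
      rw [e, map_add, h1, h2, add_zero]

/-- The quotient ring. -/
abbrev Q := cc.Quotient

/-- The projection. -/
noncomputable def pj : U →+* Q := cc.mk'

lemma pj_eq_zero {a : U} (h : ∀ p q : List ℕ, Lam (mo p * a * mo q) = 0) : pj a = 0 := by
  have h1 : ∀ u v : U, Lam (u * a * v) = 0 := by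
    refine U_ind ?_ ?_ ?_ ?_
    · intro v; simp
    · intro x y hx hy v
      rw [add_mul, add_mul, map_add, hx, hy, add_zero]
    · intro x hx v
      rw [neg_mul, neg_mul, map_neg, hx, neg_zero]
    · intro w
      refine U_ind ?_ ?_ ?_ ?_
      · simp
      · intro x y hx hy
        rw [mul_add, map_add, hx, hy, add_zero]
      · intro x hx
        rw [mul_neg, map_neg, hx, neg_zero]
      · intro w'
        exact h w w'
  have h2 : (pj a) = pj 0 := by
    refine (RingCon.eq cc).2 ?_
    intro u v
    rw [sub_zero]
    exact h1 u v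
  rw [h2, map_zero]

lemma Lam_of_pj {a : U} (h : pj a = 0) : Lam a = 0 := by
  have h2 : pj a = pj 0 := by rw [h, map_zero]
  have h3 : cc a 0 := (RingCon.eq cc).1 h2
  have := h3 1 1
  simpa using this

section Poly
variable {R : Type*} [NonUnitalRing R]

/-- The symmetric sum of degree four. -/
def P4 (a b c d : R) : R := sum4 (fun a b c d => a * (b * (c * d))) a b c d

/-- The three monomials of degree five. -/
def thrR (x a b c : R) : R :=
  x * (x * (a * (b * c))) + x * (a * (b * (c * x))) + a * (x * (b * (c * x)))

/-- The part of the polynomial which is quadratic in the first variable. -/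
def K (x a b c : R) : R := sum3 (thrR x) a b c

/-- The quadratic part. -/
def H (a b c d : R) : R := K a b c d + K b a c d + K c a b d + K d a b c

/-- The six monomials of the polarization. -/
def sixR (x y a b c : R) : R :=
  x * (y * (a * (b * c))) + y * (x * (a * (b * c)))
  + (x * (a * (b * (c * y))) + y * (a * (b * (c * x))))
  + (a * (x * (b * (c * y))) + a * (y * (b * (c * x))))

/-- The polarization. -/
def KL (x y a b c : R) : R := sum3 (sixR x y) a b c

lemma K_add (x y a b c : R) : K (x + y) a b c = K x a b c + K y a b c + KL x y a b c := by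
  simp only [K, KL, sum3, sum2, thrR, sixR, add_mul, mul_add]; abel

lemma K_add' (x a a' b c : R) : K x (a + a') b c = K x a b c + K x a' b c := by
  simp only [K, sum3, sum2, thrR, add_mul, mul_add]; abel

lemma K_neg' (x a b c : R) : K x (-a) b c = - K x a b c := by
  simp only [K, sum3, sum2, thrR, neg_mul, mul_neg]; abel

lemma K_neg (x a b c : R) : K (-x) a b c = K x a b c := by
  simp only [K, sum3, sum2, thrR, neg_mul, mul_neg, neg_neg]

lemma KL_self (x a b c : R) : KL x x a b c = K x a b c + K x a b c := by
  simp only [K, KL, sum3, sum2, thrR, sixR]; abel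

lemma KL_add (x x' y a b c : R) : KL (x + x') y a b c = KL x y a b c + KL x' y a b c := by
  simp only [KL, sum3, sum2, sixR, add_mul, mul_add]; abel

lemma KL_neg (x y a b c : R) : KL (-x) y a b c = - KL x y a b c := by
  simp only [KL, sum3, sum2, sixR, neg_mul, mul_neg]; abel

lemma KL_zero (y a b c : R) : KL 0 y a b c = 0 := by
  simp [KL, sum3, sum2, sixR]

lemma KL_swap (x y a b c : R) : KL x y a b c = KL y x a b c := by
  simp only [KL, sum3, sum2, sixR]; abel

lemma KL_add' (x y a a' b c : R) : KL x y (a + a') b c = KL x y a b c + KL x y a' b c := by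
  simp only [KL, sum3, sum2, sixR, add_mul, mul_add]; abel

lemma KL_neg' (x y a b c : R) : KL x y (-a) b c = - KL x y a b c := by
  simp only [KL, sum3, sum2, sixR, neg_mul, mul_neg]; abel

lemma KL_zero' (x y b c : R) : KL x y 0 b c = 0 := by
  simp [KL, sum3, sum2, sixR]

lemma KL_12 (x y a b c : R) : KL x y b a c = KL x y a b c := by
  simp only [KL]; exact sum3_swap12 _ _ _ _
lemma KL_23 (x y a b c : R) : KL x y a c b = KL x y a b c := by
  simp only [KL]; exact sum3_swap23 _ _ _ _

lemma K_12 (x a b c : R) : K x b a c = K x a b c := sum3_swap12 _ _ _ _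
lemma K_23 (x a b c : R) : K x a c b = K x a b c := sum3_swap23 _ _ _ _

lemma P4_add (a a' b c d : R) : P4 (a + a') b c d = P4 a b c d + P4 a' b c d := by
  simp only [P4, sum4, sum3, sum2, add_mul, mul_add]; abel

lemma P4_neg (a b c d : R) : P4 (-a) b c d = - P4 a b c d := by
  simp only [P4, sum4, sum3, sum2, neg_mul, mul_neg]; abel

lemma P4_zero (b c d : R) : P4 0 b c d = 0 := by
  simp [P4, sum4, sum3, sum2]

/-- The whole polynomial. -/
def F (a b c d : R) : R := P4 a b c d + (H a b c d + H a b c d)

lemma F_12 (a b c d : R) : F b a c d = F a b c d := by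
  simp only [F, H, P4]
  rw [sum4_swap12, K_12 c a b d, K_12 d a b c]; abel

lemma F_23 (a b c d : R) : F a c b d = F a b c d := by
  simp only [F, H, P4]
  rw [sum4_swap23, K_12 a b c d, K_23 d a b c]; abel

lemma F_34 (a b c d : R) : F a b d c = F a b c d := by
  simp only [F, H, P4]
  rw [sum4_swap34, K_23 a b c d, K_23 b a c d]; abel

end Poly

section Congr
variable {β : Type*} [Add β]

lemma sum3_congr {f g : List ℕ → List ℕ → List ℕ → β} (a b c : List ℕ)
    (h : ∀ a' b' c' : List ℕ, (∀ φ : List ℕ → Multiset ℕ, φ a' + φ b' + φ c' = φ a + φ b + φ c) →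
      f a' b' c' = g a' b' c') : sum3 f a b c = sum3 g a b c := by
  simp only [sum3, sum2]
  rw [h a b c (by intro φ; abel), h a c b (by intro φ; abel), h b a c (by intro φ; abel),
    h b c a (by intro φ; abel), h c a b (by intro φ; abel), h c b a (by intro φ; abel)]

lemma sum4_congr {f g : List ℕ → List ℕ → List ℕ → List ℕ → β} (a b c d : List ℕ)
    (h : ∀ a' b' c' d' : List ℕ, (∀ φ : List ℕ → Multiset ℕ,
      φ a' + φ b' + φ c' + φ d' = φ a + φ b + φ c + φ d) →
      f a' b' c' d' = g a' b' c' d') : sum4 f a b c d = sum4 g a b c d := by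
  simp only [sum4]
  rw [sum3_congr b c d (f := f a) (g := g a), sum3_congr a c d (f := f b) (g := g b),
    sum3_congr a b d (f := f c) (g := g c), sum3_congr a b c (f := f d) (g := g d)]
  · intro x y z hh
    refine h _ _ _ _ fun φ => ?_
    have := hh φ
    calc φ d + φ x + φ y + φ z = φ d + (φ x + φ y + φ z) := by abel
      _ = _ := by rw [this]; abel
  · intro x y z hh
    refine h _ _ _ _ fun φ => ?_
    have := hh φ
    calc φ c + φ x + φ y + φ z = φ c + (φ x + φ y + φ z) := by abel
      _ = _ := by rw [this]; abel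
  · intro x y z hh
    refine h _ _ _ _ fun φ => ?_
    have := hh φ
    calc φ b + φ x + φ y + φ z = φ b + (φ x + φ y + φ z) := by abel
      _ = _ := by rw [this]; abel
  · intro x y z hh
    refine h _ _ _ _ fun φ => ?_
    have := hh φ
    calc φ a + φ x + φ y + φ z = φ a + (φ x + φ y + φ z) := by abel
      _ = _ := by rw [this]; abel

end Congr

/-- Value of the functional on a product of words. -/
def lm (l : List (List ℕ)) : ZMod 4 := (lam l.flatten : ZMod 4)

lemma lm_two {l : List (List ℕ)} (h1 : ms l ≠ mA) (h2 : ms l ≠ mB) : 2 * lm l = 0 :=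
  two_lam h1 h2

/-- The six words with values of the functional. -/
def lsix (p x y a b c q : List ℕ) : ZMod 4 :=
  lm [p, x, y, a, b, c, q] + lm [p, y, x, a, b, c, q]
  + (lm [p, x, a, b, c, y, q] + lm [p, y, a, b, c, x, q])
  + (lm [p, a, x, b, c, y, q] + lm [p, a, y, b, c, x, q])

lemma Lam_KL (p x y a b c q : List ℕ) :
    Lam (mo p * (KL (mo x) (mo y) (mo a) (mo b) (mo c)
      + KL (mo x) (mo y) (mo a) (mo b) (mo c)) * mo q) =
      2 * sum3 (fun a b c => lsix p x y a b c q) a b c := by
  simp only [KL, sum3, sum2, sixR, lsix, lm, mul_add, add_mul, mo_mul, map_add, Lam_mo,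
    List.flatten_cons, List.flatten_nil, List.append_nil, List.append_assoc]
  ring

lemma cast_even {n : ℕ} (h : n % 2 = 0) : (2 : ZMod 4) * (n : ZMod 4) = 0 := by
  obtain ⟨k, rfl⟩ := Nat.dvd_of_mod_eq_zero h
  push_cast
  rw [← mul_assoc, show (2 : ZMod 4) * 2 = 0 by decide, zero_mul]

lemma cast_four {n : ℕ} (h : n % 4 = 0) : (n : ZMod 4) = 0 := by
  rw [ZMod.natCast_eq_zero_iff]
  exact Nat.dvd_of_mod_eq_zero h

lemma cast_sum3 (f : List ℕ → List ℕ → List ℕ → ℕ) (a b c : List ℕ) :
    ((sum3 f a b c : ℕ) : ZMod 4) = sum3 (fun a b c => (f a b c : ZMod 4)) a b c := by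
  simp only [sum3, sum2]; push_cast; ring

lemma cast_sum4 (f : List ℕ → List ℕ → List ℕ → List ℕ → ℕ) (a b c d : List ℕ) :
    ((sum4 f a b c d : ℕ) : ZMod 4) = sum4 (fun a b c d => (f a b c d : ZMod 4)) a b c d := by
  simp only [sum4, sum3, sum2]; push_cast; ring

lemma lsix_zero {p x y a b c q : List ℕ} (hx : x ≠ []) (hy : y ≠ []) (ha : a ≠ [])
    (hb : b ≠ []) (hc : c ≠ []) :
    2 * sum3 (fun a b c => lsix p x y a b c q) a b c = 0 := by
  by_cases h : ms [p, x, y, a, b, c, q] = mA ∨ ms [p, x, y, a, b, c, q] = mB
  · have e : sum3 (fun a b c => lsix p x y a b c q) a b c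
        = ((sum3 (fun a b e => six p x y a b e q) a b c : ℕ) : ZMod 4) := by
      rw [cast_sum3]
      refine sum3_congr a b c fun a' b' c' hφ => ?_
      have hm : ∀ l : List (List ℕ), ms l = ms [p, x, y, a', b', c', q] →
          lm l = (look (cd l) : ZMod 4) := by
        intro l hl
        have h3 : ms [p, x, y, a', b', c', q] = ms [p, x, y, a, b, c, q] := by
          have := hφ (fun w => (w : Multiset ℕ))
          simp only [ms_cons, ms_nil] at this ⊢
          calc (p : Multiset ℕ) + (x + (y + (a' + (b' + (c' + (q + 0))))))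
              = (p : Multiset ℕ) + x + y + q + (a' + b' + c') := by abel
            _ = _ := by rw [this]; abel
        rw [lm, lam_of_AB]
        rw [hl, h3]; exact h
      simp only [lsix, six]
      rw [hm [p, x, y, a', b', c', q] rfl,
        hm [p, y, x, a', b', c', q] (by simp only [ms_cons]; abel),
        hm [p, x, a', b', c', y, q] (by simp only [ms_cons]; abel),
        hm [p, y, a', b', c', x, q] (by simp only [ms_cons]; abel),
        hm [p, a', x, b', c', y, q] (by simp only [ms_cons]; abel),
        hm [p, a', y, b', c', x, q] (by simp only [ms_cons]; abel)]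
      push_cast
      rfl
    rw [e]
    apply cast_even
    rcases h with h | h
    · exact K_check (W := [0, 0, 1, 2, 3, 4]) chkK_A p q x y a b c hx hy ha hb hc h
    · exact K_check (W := [0, 1, 2, 3, 4, 4]) chkK_B p q x y a b c hx hy ha hb hc h
  · push Not at h
    have e : ∀ l : List (List ℕ), ms l = ms [p, x, y, a, b, c, q] → 2 * lm l = 0 := by
      intro l hl
      exact lm_two (by rw [hl]; exact h.1) (by rw [hl]; exact h.2)
    have e2 : ∀ a' b' c' : List ℕ, (a' : Multiset ℕ) + b' + c' = (a : Multiset ℕ) + b + c →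
        2 * lsix p x y a' b' c' q = 0 := by
      intro a' b' c' h0
      have h3 : ms [p, x, y, a', b', c', q] = ms [p, x, y, a, b, c, q] := by
        simp only [ms_cons, ms_nil]
        calc (p : Multiset ℕ) + (x + (y + (a' + (b' + (c' + (q + 0))))))
            = (p : Multiset ℕ) + x + y + q + (a' + b' + c') := by abel
          _ = _ := by rw [h0]; abel
      simp only [lsix, mul_add]
      rw [e [p, x, y, a', b', c', q] (by rw [← h3]),
        e [p, y, x, a', b', c', q] (by rw [← h3]; simp only [ms_cons]; abel),
        e [p, x, a', b', c', y, q] (by rw [← h3]; simp only [ms_cons]; abel),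
        e [p, y, a', b', c', x, q] (by rw [← h3]; simp only [ms_cons]; abel),
        e [p, a', x, b', c', y, q] (by rw [← h3]; simp only [ms_cons]; abel),
        e [p, a', y, b', c', x, q] (by rw [← h3]; simp only [ms_cons]; abel)]
      simp
    simp only [sum3, sum2, mul_add]
    rw [e2 a b c rfl, e2 a c b (by abel), e2 b a c (by abel), e2 b c a (by abel),
      e2 c a b (by abel), e2 c b a (by abel)]
    simp

end Pool.Agent.Q112.MLUnit
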