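import Mathlib
import Pool.Agent.Q112.ML.Ring

/-!
# The polynomial vanishes on words
-/

namespace Pool.Agent.Q112.MLUnit

/-- The three words with values of the functional. -/
def lthr (p x a b c q : List ℕ) : ZMod 4 :=
  lm [p, x, x, a, b, c, q] + lm [p, x, a, b, c, x, q] + lm [p, a, x, b, c, x, q]

lemma Lam_P4 (p a b c d q : List ℕ) :
    Lam (mo p * P4 (mo a) (mo b) (mo c) (mo d) * mo q) =
      sum4 (fun a b c d => lm [p, a, b, c, d, q]) a b c d := by
  simp only [P4, sum4, sum3, sum2, lm, mul_add, add_mul, mo_mul, map_add, Lam_mo,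
    List.flatten_cons, List.flatten_nil, List.append_nil, List.append_assoc]

lemma Lam_K (p x a b c q : List ℕ) :
    Lam (mo p * K (mo x) (mo a) (mo b) (mo c) * mo q) =
      sum3 (fun a b c => lthr p x a b c q) a b c := by
  simp only [K, sum3, sum2, thrR, lthr, lm, mul_add, add_mul, mo_mul, map_add, Lam_mo,
    List.flatten_cons, List.flatten_nil, List.append_nil, List.append_assoc]

lemma Lam_F (p a b c d q : List ℕ) :
    Lam (mo p * F (mo a) (mo b) (mo c) (mo d) * mo q) =
      sum4 (fun a b c d => lm [p, a, b, c, d, q]) a b c d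
      + 2 * (sum3 (fun x y z => lthr p a x y z q) b c d
        + sum3 (fun x y z => lthr p b x y z q) a c d
        + sum3 (fun x y z => lthr p c x y z q) a b d
        + sum3 (fun x y z => lthr p d x y z q) a b c) := by
  have e : mo p * F (mo a) (mo b) (mo c) (mo d) * mo q
      = mo p * P4 (mo a) (mo b) (mo c) (mo d) * mo q
        + (mo p * K (mo a) (mo b) (mo c) (mo d) * mo q
          + mo p * K (mo b) (mo a) (mo c) (mo d) * mo q
          + mo p * K (mo c) (mo a) (mo b) (mo d) * mo q
          + mo p * K (mo d) (mo a) (mo b) (mo c) * mo q)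
        + (mo p * K (mo a) (mo b) (mo c) (mo d) * mo q
          + mo p * K (mo b) (mo a) (mo c) (mo d) * mo q
          + mo p * K (mo c) (mo a) (mo b) (mo d) * mo q
          + mo p * K (mo d) (mo a) (mo b) (mo c) * mo q) := by
    simp only [F, H, mul_add, add_mul]; abel
  rw [e]
  simp only [map_add, Lam_P4, Lam_K]
  ring

lemma card_mA : Multiset.card mA = 6 := by decide
lemma card_mB : Multiset.card mB = 6 := by decide
lemma card_mC : Multiset.card mC = 5 := by decide
lemma mA_eq : mA = mC + {0} := by decide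
lemma mB_eq : mB = mC + {4} := by decide
lemma mC_ne_mA : mC ≠ mA := by decide
lemma mC_ne_mB : mC ≠ mB := by decide

lemma lm_big {l : List (List ℕ)} (h : 6 < Multiset.card (ms l)) : lm l = 0 := by
  have h1 : ms l ≠ mA := by intro h'; rw [h', card_mA] at h; omega
  have h2 : ms l ≠ mB := by intro h'; rw [h', card_mB] at h; omega
  have h3 : ms l ≠ mC := by intro h'; rw [h', card_mC] at h; omega
  rw [lm, lam_of_not h1 h2, fiv_zero h3, Nat.cast_zero]

lemma lm_none {l : List (List ℕ)} (h1 : ms l ≠ mA) (h2 : ms l ≠ mB) (h3 : ms l ≠ mC) :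
    lm l = 0 := by
  rw [lm, lam_of_not h1 h2, fiv_zero h3, Nat.cast_zero]

lemma count_mA {x : ℕ} (hx : x ≠ 0) : Multiset.count x mA ≤ 1 := by
  simp only [mA, Multiset.coe_count, List.count_cons, List.count_nil, beq_iff_eq]
  split_ifs <;> omega

lemma count_mB {x : ℕ} (hx : x ≠ 4) : Multiset.count x mB ≤ 1 := by
  simp only [mB, Multiset.coe_count, List.count_cons, List.count_nil, beq_iff_eq]
  split_ifs <;> omega

lemma aux_gen {M m N : Multiset ℕ} {k : ℕ} (hN : N = mC + {k}) (hk : Multiset.count k N = 2)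
    (hc : ∀ x, x ≠ k → Multiset.count x N ≤ 1) (hm : m ≠ 0) (hle : m ≤ M) (h : M + m = N) :
    M = mC := by
  have h1 : ∀ x ∈ m, x = k := by
    intro x hx
    by_contra hxk
    have h2 := hc x hxk
    rw [← h, Multiset.count_add] at h2
    have h3 := Multiset.count_pos.2 hx
    have h4 := Multiset.count_le_of_le x hle
    omega
  have h5 : m = Multiset.replicate (Multiset.card m) k := Multiset.eq_replicate_card.2 h1
  have h6 : Multiset.count k m = Multiset.card m := by
    rw [h5, Multiset.count_replicate_self, Multiset.card_replicate]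
  have h7 := Multiset.count_le_of_le k hle
  rw [← h, Multiset.count_add] at hk
  have h8 : 0 < Multiset.card m := Multiset.card_pos.2 hm
  have h9 : Multiset.card m = 1 := by omega
  rw [h9, Multiset.replicate_one] at h5
  rw [h5, hN] at h
  exact add_right_cancel h

lemma aux_A {M m : Multiset ℕ} (hm : m ≠ 0) (hle : m ≤ M) (h : M + m = mA) : M = mC :=
  aux_gen mA_eq (by decide) (fun _ => count_mA) hm hle h

lemma aux_B {M m : Multiset ℕ} (hm : m ≠ 0) (hle : m ≤ M) (h : M + m = mB) : M = mC :=
  aux_gen mB_eq (by decide) (fun _ => count_mB) hm hle h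

lemma ms_dbl {p x y z t y' z' t' q : List ℕ}
    (hφ : (y' : Multiset ℕ) + z' + t' = (y : Multiset ℕ) + z + t) :
    ms [p, x, x, y', z', t', q] = ms [p, x, y, z, t, q] + (x : Multiset ℕ) ∧
    ms [p, x, y', z', t', x, q] = ms [p, x, y, z, t, q] + (x : Multiset ℕ) ∧
    ms [p, y', x, z', t', x, q] = ms [p, x, y, z, t, q] + (x : Multiset ℕ) := by
  have e : ms [p, x, y, z, t, q] + (x : Multiset ℕ) =
      (p : Multiset ℕ) + x + x + q + (y' + z' + t') := by
    rw [hφ]; simp only [ms_cons, ms_nil]; abel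
  rw [e]
  simp only [ms_cons, ms_nil]
  refine ⟨by abel, by abel, by abel⟩

lemma coe_ne_zero {x : List ℕ} (hx : x ≠ []) : (x : Multiset ℕ) ≠ 0 := by
  intro h
  exact hx ((Multiset.coe_eq_zero x).1 h)

lemma card_coe_pos {x : List ℕ} (hx : x ≠ []) : 0 < Multiset.card (x : Multiset ℕ) :=
  Multiset.card_pos.2 (coe_ne_zero hx)

lemma part1 {p x y z t q : List ℕ} (hx : x ≠ [])
    (hM : ms [p, x, y, z, t, q] = mA ∨ ms [p, x, y, z, t, q] = mB) :
    sum3 (fun a b c => lthr p x a b c q) y z t = 0 := by
  have hc : Multiset.card (ms [p, x, y, z, t, q]) = 6 := by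
    rcases hM with h | h <;> rw [h] <;> decide
  have h0 : ∀ y' z' t' : List ℕ, (y' : Multiset ℕ) + z' + t' = (y : Multiset ℕ) + z + t →
      lthr p x y' z' t' q = 0 := by
    intro y' z' t' hφ
    obtain ⟨e1, e2, e3⟩ := ms_dbl (p := p) (x := x) (q := q) hφ
    have := card_coe_pos hx
    rw [lthr, lm_big, lm_big, lm_big]
    · simp
    · rw [e3, Multiset.card_add, hc]; omega
    · rw [e2, Multiset.card_add, hc]; omega
    · rw [e1, Multiset.card_add, hc]; omega
  simp only [sum3, sum2]
  rw [h0 y z t rfl, h0 y t z (by abel), h0 z y t (by abel), h0 z t y (by abel),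
    h0 t y z (by abel), h0 t z y (by abel)]
  simp

lemma part2 {p x y z t q : List ℕ} (hx : x ≠ []) (hM : ms [p, x, y, z, t, q] = mC) :
    sum3 (fun a b c => lthr p x a b c q) y z t
      = ((hh x (sum3 (fun a b c => thr p x a b c q) y z t) : ℕ) : ZMod 4) := by
  by_cases h4 : x = [0] ∨ x = [4]
  · rw [hh, if_pos h4, cast_sum3]
    refine sum3_congr y z t fun y' z' t' hφ => ?_
    obtain ⟨e1, e2, e3⟩ := ms_dbl (p := p) (x := x) (q := q) (hφ fun w => (w : Multiset ℕ))
    have hAB : ms [p, x, y, z, t, q] + (x : Multiset ℕ) = mA ∨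
        ms [p, x, y, z, t, q] + (x : Multiset ℕ) = mB := by
      rw [hM]
      rcases h4 with h4 | h4
      · left; rw [h4, mA_eq]; rfl
      · right; rw [h4, mB_eq]; rfl
    rw [lthr, thr, lm, lm, lm, lam_of_AB (by rw [e1]; exact hAB),
      lam_of_AB (by rw [e2]; exact hAB), lam_of_AB (by rw [e3]; exact hAB)]
    push_cast
    rfl
  · rw [hh, if_neg h4, Nat.cast_zero]
    have hA : ms [p, x, y, z, t, q] + (x : Multiset ℕ) ≠ mA := by
      intro h
      rw [hM, mA_eq] at h
      have := add_left_cancel h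
      rw [Multiset.coe_eq_singleton] at this
      exact h4 (Or.inl this)
    have hB : ms [p, x, y, z, t, q] + (x : Multiset ℕ) ≠ mB := by
      intro h
      rw [hM, mB_eq] at h
      have := add_left_cancel h
      rw [Multiset.coe_eq_singleton] at this
      exact h4 (Or.inr this)
    have hC : ms [p, x, y, z, t, q] + (x : Multiset ℕ) ≠ mC := by
      intro h
      have h5 := congrArg Multiset.card h
      rw [Multiset.card_add, hM] at h5
      have := card_coe_pos hx
      omega
    have h0 : ∀ y' z' t' : List ℕ, (y' : Multiset ℕ) + z' + t' = (y : Multiset ℕ) + z + t →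
        lthr p x y' z' t' q = 0 := by
      intro y' z' t' hφ
      obtain ⟨e1, e2, e3⟩ := ms_dbl (p := p) (x := x) (q := q) hφ
      rw [lthr, lm_none (by rw [e1]; exact hA) (by rw [e1]; exact hB) (by rw [e1]; exact hC),
        lm_none (by rw [e2]; exact hA) (by rw [e2]; exact hB) (by rw [e2]; exact hC),
        lm_none (by rw [e3]; exact hA) (by rw [e3]; exact hB) (by rw [e3]; exact hC)]
      simp
    simp only [sum3, sum2]
    rw [h0 y z t rfl, h0 y t z (by abel), h0 z y t (by abel), h0 z t y (by abel),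
      h0 t y z (by abel), h0 t z y (by abel)]
    simp

lemma part3 {p x y z t q : List ℕ} (hx : x ≠ []) (hM : ms [p, x, y, z, t, q] ≠ mC) :
    2 * sum3 (fun a b c => lthr p x a b c q) y z t = 0 := by
  have hle : (x : Multiset ℕ) ≤ ms [p, x, y, z, t, q] := by
    have e : ms [p, x, y, z, t, q] = (x : Multiset ℕ) + ((p : Multiset ℕ) + y + z + t + q) := by
      simp only [ms_cons, ms_nil]; abel
    rw [e]
    exact Multiset.le_add_right _ _
  have hA : ms [p, x, y, z, t, q] + (x : Multiset ℕ) ≠ mA := fun h =>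
    hM (aux_A (coe_ne_zero hx) hle h)
  have hB : ms [p, x, y, z, t, q] + (x : Multiset ℕ) ≠ mB := fun h =>
    hM (aux_B (coe_ne_zero hx) hle h)
  have h0 : ∀ y' z' t' : List ℕ, (y' : Multiset ℕ) + z' + t' = (y : Multiset ℕ) + z + t →
      2 * lthr p x y' z' t' q = 0 := by
    intro y' z' t' hφ
    obtain ⟨e1, e2, e3⟩ := ms_dbl (p := p) (x := x) (q := q) hφ
    rw [lthr, mul_add, mul_add, lm_two (by rw [e1]; exact hA) (by rw [e1]; exact hB),
      lm_two (by rw [e2]; exact hA) (by rw [e2]; exact hB),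
      lm_two (by rw [e3]; exact hA) (by rw [e3]; exact hB)]
    simp
  simp only [sum3, sum2, mul_add]
  rw [h0 y z t rfl, h0 y t z (by abel), h0 z y t (by abel), h0 z t y (by abel),
    h0 t y z (by abel), h0 t z y (by abel)]
  simp

lemma F_words {p a b c d q : List ℕ} (ha : a ≠ []) (hb : b ≠ []) (hc : c ≠ [])
    (hd : d ≠ []) : Lam (mo p * F (mo a) (mo b) (mo c) (mo d) * mo q) = 0 := by
  rw [Lam_F]
  have eb : ms [p, b, a, c, d, q] = ms [p, a, b, c, d, q] := by simp only [ms_cons]; abel
  have ec : ms [p, c, a, b, d, q] = ms [p, a, b, c, d, q] := by simp only [ms_cons]; abel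
  have ed : ms [p, d, a, b, c, q] = ms [p, a, b, c, d, q] := by simp only [ms_cons]; abel
  have hms : ∀ a' b' c' d' : List ℕ,
      (a' : Multiset ℕ) + b' + c' + d' = (a : Multiset ℕ) + b + c + d →
      ms [p, a', b', c', d', q] = ms [p, a, b, c, d, q] := by
    intro a' b' c' d' h0
    simp only [ms_cons, ms_nil]
    calc (p : Multiset ℕ) + (a' + (b' + (c' + (d' + (q + 0)))))
        = (p : Multiset ℕ) + q + (a' + b' + c' + d') := by abel
      _ = _ := by rw [h0]; abel
  by_cases h1 : ms [p, a, b, c, d, q] = mA ∨ ms [p, a, b, c, d, q] = mB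
  · rw [part1 ha h1, part1 hb (by rw [eb]; exact h1), part1 hc (by rw [ec]; exact h1),
      part1 hd (by rw [ed]; exact h1)]
    have e : sum4 (fun a b c d => lm [p, a, b, c, d, q]) a b c d
        = ((sum4 (fun a b c e => look (cd [p, a, b, c, e, q])) a b c d : ℕ) : ZMod 4) := by
      rw [cast_sum4]
      refine sum4_congr a b c d fun a' b' c' d' hφ => ?_
      rw [lm, lam_of_AB]
      rw [hms a' b' c' d' (hφ fun w => (w : Multiset ℕ))]
      exact h1
    rw [e, cast_four]
    · simp
    · rcases h1 with h | h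
      · exact P_check (W := [0, 0, 1, 2, 3, 4]) chkP_A p q a b c d ha hb hc hd h
      · exact P_check (W := [0, 1, 2, 3, 4, 4]) chkP_B p q a b c d ha hb hc hd h
  · by_cases h2 : ms [p, a, b, c, d, q] = mC
    · rw [part2 ha h2, part2 hb (by rw [eb]; exact h2), part2 hc (by rw [ec]; exact h2),
        part2 hd (by rw [ed]; exact h2)]
      have e : sum4 (fun a b c d => lm [p, a, b, c, d, q]) a b c d
          = ((sum4 (fun a b c d => fiv [p, a, b, c, d, q].flatten) a b c d : ℕ) : ZMod 4) := by
        rw [cast_sum4]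
        refine sum4_congr a b c d fun a' b' c' d' hφ => ?_
        have h3 := hms a' b' c' d' (hφ fun w => (w : Multiset ℕ))
        rw [lm, lam_of_not (by rw [h3, h2]; exact mC_ne_mA) (by rw [h3, h2]; exact mC_ne_mB)]
      rw [e]
      have h4 := H_check (W := [0, 1, 2, 3, 4]) chkH_C p q a b c d ha hb hc hd h2
      have h5 := cast_four h4
      rw [tot5] at h5
      push_cast at h5
      exact h5
    · have e : sum4 (fun a b c d => lm [p, a, b, c, d, q]) a b c d
          = sum4 (fun _ _ _ _ => (0 : ZMod 4)) a b c d := by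
        refine sum4_congr a b c d fun a' b' c' d' hφ => ?_
        have h3 := hms a' b' c' d' (hφ fun w => (w : Multiset ℕ))
        push Not at h1
        exact lm_none (by rw [h3]; exact h1.1) (by rw [h3]; exact h1.2) (by rw [h3]; exact h2)
      rw [e, mul_add, mul_add, mul_add, part3 ha h2, part3 hb (by rw [eb]; exact h2),
        part3 hc (by rw [ec]; exact h2), part3 hd (by rw [ed]; exact h2)]
      simp [sum4, sum3, sum2]

end Pool.Agent.Q112.MLUnit
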