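import Mathlib
import Pool.Agent.Q112.ML.Ring2

/-!
# The nonunital ring satisfies the identity
-/

namespace Pool.Agent.Q112.MLUnit

/-- A word in the quotient ring. -/
noncomputable def X (w : List ℕ) : Q := pj (mo w)

lemma X_mul (v w : List ℕ) : X v * X w = X (v ++ w) := by
  rw [X, X, X, ← map_mul, mo_mul]

/-- Additive group generated by the nonempty words. -/
noncomputable def S : AddSubgroup Q := AddSubgroup.closure {x | ∃ w : List ℕ, w ≠ [] ∧ X w = x}

lemma X_mem {w : List ℕ} (hw : w ≠ []) : X w ∈ S :=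
  AddSubgroup.subset_closure ⟨w, hw, rfl⟩

lemma S_ind {P : Q → Prop} (h0 : P 0)
    (ha : ∀ x y, x ∈ S → y ∈ S → P x → P y → P (x + y))
    (hn : ∀ x, x ∈ S → P x → P (-x)) (hw : ∀ w : List ℕ, w ≠ [] → P (X w)) :
    ∀ x ∈ S, P x := by
  intro x hx
  refine AddSubgroup.closure_induction (p := fun x _ => P x) ?_ h0 ?_ ?_ hx
  · rintro _ ⟨w, hw', rfl⟩
    exact hw w hw'
  · intro x y hx hy h1 h2
    exact ha x y hx hy h1 h2
  · intro x hx h1
    exact hn x hx h1

lemma S_mul : ∀ x ∈ S, ∀ y ∈ S, x * y ∈ S := by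
  refine S_ind ?_ ?_ ?_ ?_
  · intro y _; rw [zero_mul]; exact S.zero_mem
  · intro x x' _ _ h1 h2 y hy
    rw [add_mul]; exact S.add_mem (h1 y hy) (h2 y hy)
  · intro x _ h1 y hy
    have e : -x * y = -(x * y) := neg_mul x y
    rw [e]; exact S.neg_mem (h1 y hy)
  · intro w hw
    refine S_ind ?_ ?_ ?_ ?_
    · rw [mul_zero]; exact S.zero_mem
    · intro y y' _ _ h1 h2
      rw [mul_add]; exact S.add_mem h1 h2
    · intro y _ h1
      have e : X w * -y = -(X w * y) := mul_neg (X w) y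
      rw [e]; exact S.neg_mem h1
    · intro v hv
      rw [X_mul]
      exact X_mem (by simp [hw])

/-- The nonunital ring. -/
noncomputable def RR : NonUnitalSubring Q where
  carrier := S
  add_mem' := S.add_mem
  zero_mem' := S.zero_mem
  mul_mem' := fun {x y} hx hy => S_mul x hx y hy
  neg_mem' := S.neg_mem

/-- The polarization is annihilated by two. -/
def DK (x y a b c : Q) : Prop := KL x y a b c + KL x y a b c = 0

lemma DK_swap {x y a b c : Q} (h : DK x y a b c) : DK y x a b c := by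
  rw [DK, KL_swap]; exact h
lemma DK_12 {x y a b c : Q} (h : DK x y a b c) : DK x y b a c := by
  rw [DK, KL_12]; exact h
lemma DK_23 {x y a b c : Q} (h : DK x y a b c) : DK x y a c b := by
  rw [DK, KL_23]; exact h

lemma DK_ext {y a b c : Q} (h : ∀ w : List ℕ, w ≠ [] → DK (X w) y a b c) :
    ∀ x ∈ S, DK x y a b c := by
  refine S_ind ?_ ?_ ?_ h
  · rw [DK, KL_zero, add_zero]
  · intro x x' _ _ h1 h2
    rw [DK] at *
    rw [KL_add]
    calc _ = (KL x y a b c + KL x y a b c) + (KL x' y a b c + KL x' y a b c) := by abel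
      _ = 0 := by rw [h1, h2, add_zero]
  · intro x _ h1
    rw [DK] at *
    rw [KL_neg, ← neg_add, h1, neg_zero]

lemma DK_ext' {x y b c : Q} (h : ∀ w : List ℕ, w ≠ [] → DK x y (X w) b c) :
    ∀ a ∈ S, DK x y a b c := by
  refine S_ind ?_ ?_ ?_ h
  · rw [DK, KL_zero', add_zero]
  · intro a a' _ _ h1 h2
    rw [DK] at *
    rw [KL_add']
    calc _ = (KL x y a b c + KL x y a b c) + (KL x y a' b c + KL x y a' b c) := by abel
      _ = 0 := by rw [h1, h2, add_zero]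
  · intro a _ h1
    rw [DK] at *
    rw [KL_neg', ← neg_add, h1, neg_zero]

lemma pj_KL (x y a b c : U) : pj (KL x y a b c) = KL (pj x) (pj y) (pj a) (pj b) (pj c) := by
  simp only [KL, sum3, sum2, sixR, map_add, map_mul]

lemma pj_F (a b c d : U) : pj (F a b c d) = F (pj a) (pj b) (pj c) (pj d) := by
  simp only [F, H, K, P4, sum4, sum3, sum2, thrR, map_add, map_mul]

lemma DK_words {x y a b c : List ℕ} (hx : x ≠ []) (hy : y ≠ []) (ha : a ≠ []) (hb : b ≠ [])
    (hc : c ≠ []) : DK (X x) (X y) (X a) (X b) (X c) := by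
  rw [DK]
  simp only [X]
  rw [← pj_KL, ← map_add]
  apply pj_eq_zero
  intro p q
  rw [Lam_KL, lsix_zero hx hy ha hb hc]

lemma DK_all {x y a b c : Q} (hx : x ∈ S) (hy : y ∈ S) (ha : a ∈ S) (hb : b ∈ S)
    (hc : c ∈ S) : DK x y a b c := by
  have h1 : ∀ y a b c : List ℕ, y ≠ [] → a ≠ [] → b ≠ [] → c ≠ [] → ∀ x ∈ S,
      DK x (X y) (X a) (X b) (X c) := fun y a b c hy ha hb hc =>
    DK_ext fun w hw => DK_words hw hy ha hb hc
  have h2 : ∀ a b c : List ℕ, a ≠ [] → b ≠ [] → c ≠ [] → ∀ x ∈ S, ∀ y ∈ S,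
      DK x y (X a) (X b) (X c) := fun a b c ha hb hc x hx y hy =>
    DK_swap (DK_ext (fun w hw => DK_swap (h1 w a b c hw ha hb hc x hx)) y hy)
  have h3 : ∀ b c : List ℕ, b ≠ [] → c ≠ [] → ∀ x ∈ S, ∀ y ∈ S, ∀ a ∈ S,
      DK x y a (X b) (X c) := fun b c hb hc x hx y hy a ha =>
    DK_ext' (fun w hw => h2 w b c hw hb hc x hx y hy) a ha
  have h4 : ∀ c : List ℕ, c ≠ [] → ∀ x ∈ S, ∀ y ∈ S, ∀ a ∈ S, ∀ b ∈ S,
      DK x y a b (X c) := fun c hc x hx y hy a ha b hb =>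
    DK_12 (DK_ext' (fun w hw => DK_12 (h3 w c hw hc x hx y hy a ha)) b hb)
  exact DK_23 (DK_12 (DK_ext' (fun w hw => DK_12 (DK_23 (h4 w hw x hx y hy a ha b hb))) c hc))

lemma F_add (a a' b c d : Q) :
    F (a + a') b c d = F a b c d + F a' b c d + (KL a a' b c d + KL a a' b c d) := by
  simp only [F, H, P4_add, K_add, K_add']; abel

lemma F_neg (a b c d : Q) :
    F (-a) b c d = - F a b c d + (KL a a b c d + KL a a b c d) := by
  simp only [F, H, P4_neg, K_neg, K_neg', KL_self]; abel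

lemma F_zero (b c d : Q) : F 0 b c d = 0 := by
  simp [F, H, P4_zero, K, sum3, sum2, thrR]

lemma F_ext {b c d : Q} (hb : b ∈ S) (hc : c ∈ S) (hd : d ∈ S)
    (h : ∀ w : List ℕ, w ≠ [] → F (X w) b c d = 0) : ∀ a ∈ S, F a b c d = 0 := by
  refine S_ind ?_ ?_ ?_ h
  · exact F_zero b c d
  · intro x x' hx hx' h1 h2
    rw [F_add, h1, h2, DK_all hx hx' hb hc hd]; simp
  · intro x hx h1
    rw [F_neg, h1, DK_all hx hx hb hc hd]; simp

lemma F_w {a b c d : List ℕ} (ha : a ≠ []) (hb : b ≠ []) (hc : c ≠ []) (hd : d ≠ []) :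
    F (X a) (X b) (X c) (X d) = 0 := by
  simp only [X]
  rw [← pj_F]
  apply pj_eq_zero
  intro p q
  exact F_words ha hb hc hd

theorem F_all {a b c d : Q} (ha : a ∈ S) (hb : b ∈ S) (hc : c ∈ S) (hd : d ∈ S) :
    F a b c d = 0 := by
  have h1 : ∀ b c d : List ℕ, b ≠ [] → c ≠ [] → d ≠ [] → ∀ a ∈ S,
      F a (X b) (X c) (X d) = 0 := fun b c d hb hc hd =>
    F_ext (X_mem hb) (X_mem hc) (X_mem hd) fun w hw => F_w hw hb hc hd
  have h2 : ∀ c d : List ℕ, c ≠ [] → d ≠ [] → ∀ a ∈ S, ∀ b ∈ S,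
      F a b (X c) (X d) = 0 := fun c d hc hd a ha b hb => by
    rw [← F_12]
    exact F_ext ha (X_mem hc) (X_mem hd) (fun w hw => by
      rw [← F_12]; exact h1 w c d hw hc hd a ha) b hb
  have h3 : ∀ d : List ℕ, d ≠ [] → ∀ a ∈ S, ∀ b ∈ S, ∀ c ∈ S,
      F a b c (X d) = 0 := fun d hd a ha b hb c hc => by
    rw [← F_23, ← F_12]
    exact F_ext ha hb (X_mem hd) (fun w hw => by
      rw [← F_12, ← F_23]; exact h2 w d hw hd a ha b hb) c hc
  rw [← F_34, ← F_23, ← F_12]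
  exact F_ext ha hb hc (fun w hw => by
    rw [← F_12, ← F_23, ← F_34]; exact h3 w hw a ha b hb c hc) d hd

end Pool.Agent.Q112.MLUnit
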